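import Mathlib

/-!
# Howitt-Warren flows: definitions

Everything follows the problem file MP_b213bc_pr. A family of random probability kernels on `ℝ` on
the probability space `(Ω, P)` is given by kernels `K s t : Kernel (Ω × ℝ) ℝ`; `K s t (ω, x)` is
the measure `K_{s,t}(x, ·)` for the realisation `ω`.
-/

set_option autoImplicit false

open MeasureTheory ProbabilityTheory Filter Topology
open scoped ENNReal NNReal

namespace Pool.Agent.U125.HW

/-- The sigma-algebra generated by the random kernel `K_{s,t}`, that is, by the random variables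
`ω ↦ K_{s,t}(x, A)`, `x ∈ ℝ`, `A` Borel. -/
def sigmaK {Ω : Type*} [MeasurableSpace Ω] (K : ℝ → ℝ → Kernel (Ω × ℝ) ℝ) (s t : ℝ) :
    MeasurableSpace Ω :=
  ⨆ (x : ℝ) (A : Set ℝ) (_ : MeasurableSet A),
    MeasurableSpace.comap (fun ω => K s t (ω, x) A) inferInstance

/-- `K` is a stochastic flow of kernels on `ℝ`. -/
structure IsFlow {Ω : Type*} [MeasurableSpace Ω] (P : Measure Ω)
    (K : ℝ → ℝ → Kernel (Ω × ℝ) ℝ) : Prop where
  /-- the `K_{s,t}(x, ·)` are probability measures -/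
  markov : ∀ s t : ℝ, s ≤ t → IsMarkovKernel (K s t)
  /-- (i), first part: almost surely `K_{s,s}(x, ·) = δ_x` -/
  refl : ∀ s x : ℝ, ∀ᵐ ω ∂P, K s s (ω, x) = Measure.dirac x
  /-- (i), second part: almost surely `∫ K_{s,t}(x, dy) K_{t,u}(y, A) = K_{s,u}(x, A)` -/
  comp : ∀ s t u : ℝ, s ≤ t → t ≤ u → ∀ x : ℝ, ∀ᵐ ω ∂P, ∀ A : Set ℝ, MeasurableSet A →
    ∫⁻ y, K t u (ω, y) A ∂(K s t (ω, x)) = K s u (ω, x) A
  /-- (ii): the kernels of successive disjoint time intervals are independent -/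
  indep : ∀ (m : ℕ) (t : Fin (m + 1) → ℝ), Monotone t →
    iIndep (fun i : Fin m => sigmaK K (t i.castSucc) (t i.succ)) P
  /-- (iii): `K_{s,t}` and `K_{s+u,t+u}` have the same finite-dimensional distributions -/
  stat : ∀ s t u : ℝ, s ≤ t → ∀ (m : ℕ) (x : Fin m → ℝ) (A : Fin m → Set ℝ),
    (∀ i, MeasurableSet (A i)) →
    IdentDistrib (fun ω i => K s t (ω, x i) (A i)) (fun ω i => K (s + u) (t + u) (ω, x i) (A i)) P P

/-- The probability, for the realisation `ω` of the kernels, that a motion which is at `x` at time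
`s` and moves according to the kernels is in `A₁` at time `t₁`, in `A₂` at time `t₂`, ..., where
`(t₁, A₁), (t₂, A₂), ...` is the given list: `∫_{A₁} K_{s,t₁}(x, dy₁) ∫_{A₂} K_{t₁,t₂}(y₁, dy₂) ...`. -/
noncomputable def quenched {Ω : Type*} [MeasurableSpace Ω] (K : ℝ → ℝ → Kernel (Ω × ℝ) ℝ) (ω : Ω) :
    ℝ → ℝ → List (ℝ × Set ℝ) → ℝ≥0∞
  | _, _, [] => 1
  | s, x, (t, A) :: l => ∫⁻ y in A, quenched K ω t y l ∂(K s t (ω, x))

/-- `X` is the `n`-point motion of `K` started at `x`: given the kernels, the `n` coordinates are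
independent and move according to the kernels. So
`P'(X_i(t_j) ∈ A_{j,i} for all i, j) = E ∏_i quenched(x_i; (t_j, A_{j,i})_j)`; for one time `t` this is
`P'(X_i(t) ∈ A_i for all i) = E ∏_i K_{0,t}(x_i, A_i)`. -/
structure IsPointMotion {Ω : Type*} [MeasurableSpace Ω] (P : Measure Ω)
    (K : ℝ → ℝ → Kernel (Ω × ℝ) ℝ) {n : ℕ} (x : Fin n → ℝ) {Ω' : Type*} [MeasurableSpace Ω']
    (P' : Measure Ω') (X : ℝ≥0 → Ω' → Fin n → ℝ) : Prop where
  fdd : ∀ (m : ℕ) (t : Fin m → ℝ≥0), Monotone t → ∀ A : Fin m → Fin n → Set ℝ,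
    (∀ j i, MeasurableSet (A j i)) →
    P' {ω' | ∀ j i, X (t j) ω' i ∈ A j i} =
      ∫⁻ ω, ∏ i, quenched K ω 0 (x i) (List.ofFn fun j => ((t j : ℝ), A j i)) ∂P

/-- `β_+(m) = β + 2 ∫ ν(dq) ∑_{k=0}^{m-2} (1-q)^k` (so `β_+(1) = β`). -/
noncomputable def betaPlus (β : ℝ) (ν : Measure ℝ) (m : ℕ) : ℝ :=
  β + 2 * ∫ q, ∑ k ∈ Finset.range (m - 1), (1 - q) ^ k ∂ν

/-- `f_Δ(x) = max_{i ∈ Δ} x_i` -/
noncomputable def fMax {n : ℕ} (D : Finset (Fin n)) (hD : D.Nonempty) (x : Fin n → ℝ) : ℝ :=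
  D.sup' hD x

/-- `g_Δ(x) = |{i ∈ Δ : x_i = f_Δ(x)}|` -/
noncomputable def gMax {n : ℕ} (D : Finset (Fin n)) (hD : D.Nonempty) (x : Fin n → ℝ) : ℕ :=
  (D.filter fun i => x i = fMax D hD x).card

open Classical in
/-- `X` solves the Howitt-Warren martingale problem with drift `β` and characteristic measure `ν`,
started at `x`: it is continuous and square integrable; `f_Δ(X(t)) - ∫_0^t β_+(g_Δ(X(s))) ds` is a
martingale for the natural filtration for every nonempty `Δ`; (for `Δ = {i}` this says that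
`X_i(t) - β t` is a martingale) and `⟨X_i, X_j⟩(t) = ∫_0^t 1_{X_i(s) = X_j(s)} ds`, that is,
`(X_i(t) - β t) (X_j(t) - β t) - ∫_0^t 1_{X_i(s) = X_j(s)} ds` is a martingale. -/
structure IsSolution (β : ℝ) (ν : Measure ℝ) {n : ℕ} (x : Fin n → ℝ) {Ω' : Type*}
    [MeasurableSpace Ω'] (P' : Measure Ω') (X : ℝ≥0 → Ω' → Fin n → ℝ) : Prop where
  meas : ∀ t, StronglyMeasurable (X t)
  init : ∀ ω', X 0 ω' = x
  cont : ∀ ω', Continuous fun t => X t ω'
  sqInt : ∀ t i, MemLp (fun ω' => X t ω' i) 2 P'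
  bracket : ∀ i j, Martingale (fun (t : ℝ≥0) ω' =>
    (X t ω' i - β * t) * (X t ω' j - β * t) -
      ∫ s in (0 : ℝ)..t, if X s.toNNReal ω' i = X s.toNNReal ω' j then (1 : ℝ) else 0)
    (Filtration.natural X meas) P'
  drift : ∀ (D : Finset (Fin n)) (hD : D.Nonempty), Martingale (fun (t : ℝ≥0) ω' =>
    fMax D hD (X t ω') - ∫ s in (0 : ℝ)..t, betaPlus β ν (gMax D hD (X s.toNNReal ω')))
    (Filtration.natural X meas) P'

/-- `K` is a Howitt-Warren flow with drift `β` and characteristic measure `ν`: a stochastic flow of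
kernels whose `n`-point motions solve the Howitt-Warren martingale problem. -/
structure IsHowittWarren {Ω : Type*} [MeasurableSpace Ω] (P : Measure Ω)
    (K : ℝ → ℝ → Kernel (Ω × ℝ) ℝ) (β : ℝ) (ν : Measure ℝ) : Prop where
  flow : IsFlow P K
  motion : ∀ (n : ℕ) (x : Fin n → ℝ), ∃ (Ω' : Type) (_ : MeasurableSpace Ω') (P' : Measure Ω')
    (_ : IsProbabilityMeasure P') (X : ℝ≥0 → Ω' → Fin n → ℝ),
    IsPointMotion P K x P' X ∧ IsSolution β ν x P' X

/-- The random variable `(-log K_{0,t}(0, [tx, tx+1]) - c t) / (σ t^(1/3))`, with values in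
`[-∞, ∞]` (`-log 0 = ∞`). -/
noncomputable def rescaled {Ω : Type*} [MeasurableSpace Ω] (K : ℝ → ℝ → Kernel (Ω × ℝ) ℝ)
    (x c σ t : ℝ) (ω : Ω) : EReal :=
  (-(ENNReal.log (K 0 t (ω, 0) (Set.Icc (t * x) (t * x + 1)))) - ((c * t : ℝ) : EReal)) /
    ((σ * t ^ (1 / 3 : ℝ) : ℝ) : EReal)

/-- Convergence in distribution, as `t → ∞`, of the random variables `Y t` with values in
`[-∞, ∞]` to the law `χ` on `ℝ`: convergence of the distribution functions at every point of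
continuity of the distribution function of `χ`. -/
def ConvergesInLaw {Ω : Type*} [MeasurableSpace Ω] (P : Measure Ω) (Y : ℝ → Ω → EReal)
    (χ : Measure ℝ) : Prop :=
  ∀ s : ℝ, ContinuousAt (cdf χ) s →
    Tendsto (fun t => P.real {ω | Y t ω ≤ (s : EReal)}) atTop (𝓝 (cdf χ s))

end Pool.Agent.U125.HW
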