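import Pool.Agent.U125.HW.Defs

/-!
# Howitt-Warren flows with finite right speed: the kernel vanishes beyond the speed
-/

set_option autoImplicit false

open MeasureTheory ProbabilityTheory Filter Topology
open scoped ENNReal NNReal

namespace Pool.Agent.U125.HW

lemma geom_le {q : ℝ} (hq : q ∈ Set.Ioc (0 : ℝ) 1) (m : ℕ) :
    ∑ k ∈ Finset.range m, (1 - q) ^ k ≤ q⁻¹ := by
  have h1 : (1 - q) ≠ 1 := by
    have := hq.1
    intro h; linarith
  rw [geom_sum_eq h1]
  have hq0 := hq.1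
  have h2 : 0 ≤ (1 - q) ^ m := pow_nonneg (by linarith [hq.2]) m
  have h3 : ((1 - q) ^ m - 1) / (1 - q - 1) = (1 - (1 - q) ^ m) / q := by
    have : (1 - q - 1) = -q := by ring
    rw [this, div_neg, ← neg_div]
    congr 1; ring
  rw [h3, div_le_iff₀ hq0, inv_mul_cancel₀ hq0.ne']
  linarith

/-- the right speed `β + 2 ∫ q⁻¹ ν(dq)` bounds all the `β_+(m)` -/
lemma betaPlus_le {β : ℝ} {ν : Measure ℝ} [IsFiniteMeasure ν] (hν : ν (Set.Icc 0 1)ᶜ = 0)
    (hq : ∫⁻ q, (ENNReal.ofReal q)⁻¹ ∂ν < ∞) (m : ℕ) :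
    betaPlus β ν m ≤ β + 2 * ∫ q, q⁻¹ ∂ν := by
  have h0 : ∀ᵐ q ∂ν, q ∈ Set.Icc (0 : ℝ) 1 := by
    rw [ae_iff]
    exact hν
  have hm : Measurable fun q : ℝ => (ENNReal.ofReal q)⁻¹ := by fun_prop
  have h1 : ∀ᵐ q ∂ν, (ENNReal.ofReal q)⁻¹ < ∞ := ae_lt_top hm hq.ne
  have h2 : ∀ᵐ q ∂ν, q ∈ Set.Ioc (0 : ℝ) 1 := by
    filter_upwards [h0, h1] with q hq0 hq1
    refine ⟨?_, hq0.2⟩
    rcases hq0.1.eq_or_lt with h | h
    · exfalso
      rw [← h] at hq1
      simp at hq1
    · exact h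
  have hint : Integrable (fun q : ℝ => q⁻¹) ν := by
    refine ⟨measurable_inv.aestronglyMeasurable, ?_⟩
    rw [hasFiniteIntegral_iff_ofReal]
    · refine lt_of_le_of_lt (le_of_eq (lintegral_congr_ae ?_)) hq
      filter_upwards [h2] with q hq
      rw [ENNReal.ofReal_inv_of_pos hq.1]
    · filter_upwards [h2] with q hq
      exact inv_nonneg.2 hq.1.le
  unfold betaPlus
  have : ∫ q, ∑ k ∈ Finset.range (m - 1), (1 - q) ^ k ∂ν ≤ ∫ q, q⁻¹ ∂ν := by
    apply integral_mono_of_nonneg _ hint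
    · filter_upwards [h2] with q hq
      exact geom_le hq _
    · filter_upwards [h2] with q hq
      exact Finset.sum_nonneg fun k _ => pow_nonneg (by linarith [hq.2]) k
  linarith

variable {Ω' : Type*} [MeasurableSpace Ω'] {P' : Measure Ω'} [IsProbabilityMeasure P']

/-- the variance of the one-point motion -/
lemma var_one {β : ℝ} {ν : Measure ℝ} {n : ℕ} {X : ℝ≥0 → Ω' → Fin n → ℝ}
    (hX : IsSolution β ν (fun _ => 0) P' X) (i : Fin n) (t : ℝ≥0) :
    ∫ ω', (X t ω' i - β * t) ^ 2 ∂P' = t := by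
  have hM := hX.bracket i i
  have h1 := hM.setIntegral_eq (zero_le : (0 : ℝ≥0) ≤ t) (s := Set.univ) MeasurableSet.univ
  simp only [Measure.restrict_univ, if_true, intervalIntegral.integral_const, smul_eq_mul,
    mul_one, sub_zero, hX.init, NNReal.coe_zero, mul_zero, sub_self, integral_zero] at h1
  have h2 : Integrable (fun ω' => (X t ω' i - β * t) * (X t ω' i - β * t)) P' := by
    have h3 := (hX.sqInt t i).sub (memLp_const (β * t))
    exact MemLp.integrable_mul h3 h3
  rw [integral_sub h2 (integrable_const _)] at h1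
  simp only [integral_const, probReal_univ, smul_eq_mul, one_mul] at h1
  simp_rw [sq]
  linarith

lemma meas_gMax {n : ℕ} (D : Finset (Fin n)) (hD : D.Nonempty) {Y : ℝ → Fin n → ℝ}
    (hY : Continuous Y) : Measurable fun s => gMax D hD (Y s) := by
  have h1 : (fun s => gMax D hD (Y s)) =
      fun s => ∑ i ∈ D, if Y s i = fMax D hD (Y s) then 1 else 0 := by
    funext s
    unfold gMax
    rw [Finset.card_filter]
  rw [h1]
  apply Finset.measurable_fun_sum
  intro i _
  apply Measurable.ite _ measurable_const measurable_const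
  apply IsClosed.measurableSet
  apply isClosed_eq
  · exact (continuous_apply i).comp hY
  · unfold fMax
    have : (fun x => D.sup' hD (Y x)) = D.sup' hD (fun i x => Y x i) := by
      funext x
      rw [Finset.sup'_apply]
    rw [this]
    exact Continuous.finset_sup' hD fun i _ => (continuous_apply i).comp hY

/-- the mean of the maximum of the `n`-point motion -/
lemma mean_max {β B : ℝ} {ν : Measure ℝ} {n : ℕ} (hn : 0 < n) {X : ℝ≥0 → Ω' → Fin n → ℝ}
    (hX : IsSolution β ν (fun _ => 0) P' X) (hB : ∀ m, betaPlus β ν m ≤ B) (t : ℝ≥0) :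
    ∃ Z : Ω' → ℝ, Integrable Z P' ∧ (∀ ω' i, X t ω' i ≤ Z ω') ∧
      (∀ ω', ∃ i, Z ω' = X t ω' i) ∧ ∫ ω', Z ω' ∂P' ≤ B * t := by
  have hne : (Finset.univ : Finset (Fin n)).Nonempty := ⟨⟨0, hn⟩, Finset.mem_univ _⟩
  set Z : Ω' → ℝ := fun ω' => fMax Finset.univ hne (X t ω') with hZ
  have hexi : ∀ ω', ∃ i, Z ω' = X t ω' i := by
    intro ω'
    obtain ⟨i, _, hi⟩ := Finset.exists_mem_eq_sup' hne (X t ω')
    exact ⟨i, hi⟩
  have hle : ∀ ω' i, X t ω' i ≤ Z ω' := fun ω' i => Finset.le_sup' (X t ω') (Finset.mem_univ i)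
  have hmeas : Measurable Z := by
    have hm : ∀ i, Measurable fun ω' => X t ω' i := fun i =>
      (measurable_pi_apply i).comp (hX.meas t).measurable
    have : Z = Finset.univ.sup' hne (fun i ω' => X t ω' i) := by
      funext x
      rw [Finset.sup'_apply]
      rfl
    rw [this]
    exact Finset.measurable_sup' hne fun i _ => hm i
  have hint : Integrable Z P' := by
    have h1 : Integrable (fun ω' => ∑ i, |X t ω' i|) P' :=
      integrable_finsetSum _ fun i _ => ((hX.sqInt t i).integrable (by norm_num)).abs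
    apply h1.mono' hmeas.aestronglyMeasurable
    refine Eventually.of_forall fun ω' => ?_
    obtain ⟨i, hi⟩ := hexi ω'
    rw [Real.norm_eq_abs, hi]
    exact Finset.single_le_sum (f := fun i => |X t ω' i|) (fun _ _ => abs_nonneg _)
      (Finset.mem_univ i)
  refine ⟨Z, hint, hle, hexi, ?_⟩
  have hM := hX.drift Finset.univ hne
  have h1 := hM.setIntegral_eq (zero_le : (0 : ℝ≥0) ≤ t) (s := Set.univ) MeasurableSet.univ
  have h0 : fMax Finset.univ hne (fun _ : Fin n => (0 : ℝ)) = 0 := by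
    unfold fMax
    simp
  simp only [Measure.restrict_univ, hX.init, NNReal.coe_zero, intervalIntegral.integral_same,
    sub_self, h0, integral_zero] at h1
  -- `Z ≤ M_t + B t`
  have h2 : ∀ ω', Z ω' ≤ (fMax Finset.univ hne (X t ω') -
      ∫ s in (0 : ℝ)..t, betaPlus β ν (gMax Finset.univ hne (X s.toNNReal ω'))) + B * t := by
    intro ω'
    have hY : Continuous fun s : ℝ => X s.toNNReal ω' :=
      (hX.cont ω').comp continuous_real_toNNReal
    have hmg : Measurable fun s : ℝ => betaPlus β ν (gMax Finset.univ hne (X s.toNNReal ω')) :=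
      (measurable_from_top (f := betaPlus β ν)).comp (meas_gMax Finset.univ hne hY)
    have hbdd : ∀ s : ℝ, ‖betaPlus β ν (gMax Finset.univ hne (X s.toNNReal ω'))‖ ≤
        ∑ m ∈ Finset.range (n + 1), |betaPlus β ν m| := by
      intro s
      have hcard : gMax Finset.univ hne (X s.toNNReal ω') ≤ n := by
        unfold gMax
        exact (Finset.card_filter_le _ _).trans (by simp)
      rw [Real.norm_eq_abs]
      exact Finset.single_le_sum (f := fun m => |betaPlus β ν m|) (fun _ _ => abs_nonneg _)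
        (Finset.mem_range.2 (Nat.lt_succ_of_le hcard))
    have hii : IntervalIntegrable
        (fun s : ℝ => betaPlus β ν (gMax Finset.univ hne (X s.toNNReal ω'))) volume 0 t := by
      rw [intervalIntegrable_iff]
      apply Measure.integrableOn_of_bounded (M := ∑ m ∈ Finset.range (n + 1), |betaPlus β ν m|)
      · have h9 : Set.uIoc (0 : ℝ) (t : ℝ) = Set.Ioc 0 (t : ℝ) := Set.uIoc_of_le t.coe_nonneg
        rw [h9]
        simp
      · exact hmg.aestronglyMeasurable
      · exact Eventually.of_forall hbdd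
    have h3 : ∫ s in (0 : ℝ)..t, betaPlus β ν (gMax Finset.univ hne (X s.toNNReal ω')) ≤
        ∫ s in (0 : ℝ)..t, B :=
      intervalIntegral.integral_mono_on t.2 hii intervalIntegrable_const fun s _ => hB _
    rw [intervalIntegral.integral_const, smul_eq_mul, sub_zero] at h3
    simp only [hZ]
    linarith
  have h4 := integral_mono hint ((hM.integrable t).add (integrable_const (B * t))) h2
  simp only [Pi.add_apply] at h4
  rw [integral_add (hM.integrable t) (integrable_const _)] at h4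
  simp only [integral_const, probReal_univ, smul_eq_mul, one_mul] at h4
  linarith

/-- Markov inequality for the maximum of the `n`-point motion, uniformly in `n` -/
lemma prob_max {β B : ℝ} {ν : Measure ℝ} {n : ℕ} (hn : 0 < n) {X : ℝ≥0 → Ω' → Fin n → ℝ}
    (hX : IsSolution β ν (fun _ => 0) P' X) (hB : ∀ m, betaPlus β ν m ≤ B) (t : ℝ≥0) {u : ℝ}
    (hu : 0 < u) :
    1 - ((B - β) * t + Real.sqrt t) / u ≤ P'.real {ω' | ∀ i, X t ω' i < β * t + u} := by
  obtain ⟨Z, hZi, hle, hexi, hmean⟩ := mean_max hn hX hB t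
  set i0 : Fin n := ⟨0, hn⟩
  set W : Ω' → ℝ := fun ω' => X t ω' i0 - β * t with hW
  have hWL : MemLp W 2 P' := (hX.sqInt t i0).sub (memLp_const (β * t))
  have hWi : Integrable W P' := hWL.integrable (by norm_num)
  have hW1 : ∫ ω', |W ω'| ∂P' ≤ Real.sqrt t := by
    have hv := var_one hX i0 t
    have h1 : (∫ ω', |W ω'| ∂P') ^ 2 ≤ ∫ ω', W ω' ^ 2 ∂P' := by
      have h2 : 0 ≤ ∫ ω', (|W ω'| - ∫ x, |W x| ∂P') ^ 2 ∂P' :=
        integral_nonneg fun _ => sq_nonneg _
      have h3 : ∀ ω', (|W ω'| - ∫ x, |W x| ∂P') ^ 2 =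
          W ω' ^ 2 - 2 * (∫ x, |W x| ∂P') * |W ω'| + (∫ x, |W x| ∂P') ^ 2 := by
        intro ω'
        rw [← sq_abs (W ω')]
        ring
      simp_rw [h3] at h2
      have hW2 : Integrable (fun ω' => W ω' ^ 2) P' := hWL.integrable_sq
      set c : ℝ := ∫ x, |W x| ∂P' with hc
      have h8 : ∫ ω', (W ω' ^ 2 - 2 * c * |W ω'| + c ^ 2) ∂P' =
          ∫ ω', W ω' ^ 2 ∂P' - 2 * c * c + c ^ 2 := by
        have e1 : ∫ ω', (W ω' ^ 2 - 2 * c * |W ω'| + c ^ 2) ∂P' =
            ∫ ω', (W ω' ^ 2 - 2 * c * |W ω'|) ∂P' + ∫ _, c ^ 2 ∂P' :=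
          integral_add (hW2.sub (hWi.abs.const_mul (2 * c))) (integrable_const _)
        have e2 : ∫ ω', (W ω' ^ 2 - 2 * c * |W ω'|) ∂P' =
            ∫ ω', W ω' ^ 2 ∂P' - ∫ ω', 2 * c * |W ω'| ∂P' :=
          integral_sub hW2 (hWi.abs.const_mul (2 * c))
        rw [e1, e2, integral_const_mul, ← hc]
        simp only [integral_const, probReal_univ, smul_eq_mul, one_mul]
      rw [h8] at h2
      nlinarith
    rw [hv] at h1
    apply Real.le_sqrt_of_sq_le h1
  -- the positive part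
  have hpos : ∫ ω', max (Z ω' - β * t) 0 ∂P' ≤ (B - β) * t + Real.sqrt t := by
    have h1 : ∀ ω', max (Z ω' - β * t) 0 ≤ (Z ω' - β * t) + |W ω'| := by
      intro ω'
      have h2 := hle ω' i0
      have h3 : W ω' ≤ Z ω' - β * t := by simp only [hW]; linarith
      have h4 := neg_abs_le (W ω')
      have h5 := abs_nonneg (W ω')
      rcases max_cases (Z ω' - β * t) 0 with ⟨h6, _⟩ | ⟨h6, _⟩ <;> rw [h6] <;> linarith
    have h2 := integral_mono ((hZi.sub (integrable_const (β * t))).pos_part)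
      ((hZi.sub (integrable_const (β * t))).add hWi.abs) h1
    have e1 : ∫ ω', ((Z ω' - β * t) + |W ω'|) ∂P' =
        ∫ ω', (Z ω' - β * t) ∂P' + ∫ ω', |W ω'| ∂P' :=
      integral_add (hZi.sub (integrable_const (β * t))) hWi.abs
    have e2 : ∫ ω', (Z ω' - β * t) ∂P' = ∫ ω', Z ω' ∂P' - ∫ _, β * t ∂P' :=
      integral_sub hZi (integrable_const _)
    simp only [integral_const, probReal_univ, smul_eq_mul, one_mul] at e2
    refine h2.trans ?_
    change ∫ ω', ((Z ω' - β * t) + |W ω'|) ∂P' ≤ _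
    rw [e1, e2]
    linarith
  have hmk := mul_meas_ge_le_integral_of_nonneg (μ := P') (f := fun ω' => max (Z ω' - β * t) 0)
    (Eventually.of_forall fun ω' => le_max_right _ _)
    ((hZi.sub (integrable_const (β * t))).pos_part) u
  have h5 : P'.real {ω' | u ≤ max (Z ω' - β * t) 0} ≤ ((B - β) * t + Real.sqrt t) / u := by
    rw [le_div_iff₀ hu, mul_comm]
    exact hmk.trans hpos
  have h6 : {ω' | ∀ i, X t ω' i < β * t + u}ᶜ ⊆ {ω' | u ≤ max (Z ω' - β * t) 0} := by
    intro ω' hω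
    simp only [Set.mem_compl_iff, Set.mem_setOf_eq, not_forall, not_lt] at hω
    obtain ⟨i, hi⟩ := hω
    have := hle ω' i
    simp only [Set.mem_setOf_eq]
    exact le_max_of_le_left (by linarith)
  have hms : MeasurableSet {ω' | ∀ i, X t ω' i < β * t + u} := by
    rw [Set.setOf_forall]
    exact MeasurableSet.iInter fun i => measurableSet_lt
      ((measurable_pi_apply i).comp (hX.meas t).measurable) measurable_const
  have h7 := measureReal_mono (μ := P') h6
  rw [probReal_compl_eq_one_sub hms] at h7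
  linarith

variable {Ω : Type*} [MeasurableSpace Ω] {P : Measure Ω} [IsProbabilityMeasure P]

lemma fdd_one {K : ℝ → ℝ → Kernel (Ω × ℝ) ℝ} {n : ℕ} {x : Fin n → ℝ}
    {X : ℝ≥0 → Ω' → Fin n → ℝ} (h : IsPointMotion P K x P' X) (t : ℝ≥0) {A : Set ℝ}
    (hA : MeasurableSet A) :
    P' {ω' | ∀ i, X t ω' i ∈ A} = ∫⁻ ω, ∏ i, K 0 t (ω, x i) A ∂P := by
  have h1 := h.fdd 1 (fun _ => t) (fun _ _ _ => le_rfl) (fun _ _ => A) (fun _ _ => hA)
  have h2 : {ω' | ∀ (_ : Fin 1) (i : Fin n), X t ω' i ∈ A} = {ω' | ∀ i, X t ω' i ∈ A} := by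
    ext ω'
    simp
  rw [h2] at h1
  rw [h1]
  apply lintegral_congr
  intro ω
  apply Finset.prod_congr rfl
  intro i _
  simp [quenched, List.ofFn_succ]

/-- the kernel gives mass one to the half-line with large probability -/
lemma kernel_one {K : ℝ → ℝ → Kernel (Ω × ℝ) ℝ} {β B : ℝ} {ν : Measure ℝ}
    (hK : IsHowittWarren P K β ν) (hB : ∀ m, betaPlus β ν m ≤ B) (t : ℝ≥0) {u : ℝ} (hu : 0 < u) :
    ENNReal.ofReal (1 - ((B - β) * t + Real.sqrt t) / u) ≤
      P {ω | K 0 t (ω, 0) (Set.Iio (β * t + u)) = 1} := by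
  set k : Ω → ℝ≥0∞ := fun ω => K 0 t (ω, 0) (Set.Iio (β * t + u)) with hk
  have hkm : Measurable k :=
    (Kernel.measurable_coe _ measurableSet_Iio).comp (measurable_id.prodMk measurable_const)
  haveI := hK.flow.markov 0 t t.2
  have hk1 : ∀ ω, k ω ≤ 1 := fun ω => prob_le_one
  have h1 : ∀ n : ℕ, 0 < n → ENNReal.ofReal (1 - ((B - β) * t + Real.sqrt t) / u) ≤
      ∫⁻ ω, k ω ^ n ∂P := by
    intro n hn
    obtain ⟨Ω', m', P', hP', X, hX1, hX2⟩ := hK.motion n (fun _ => 0)
    have h2 := fdd_one hX1 t (measurableSet_Iio (a := β * t + u))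
    simp only [Finset.prod_const, Finset.card_univ, Fintype.card_fin, Set.mem_Iio] at h2
    have h3 := prob_max hn hX2 hB t hu
    rw [← h2]
    rw [Measure.real] at h3
    exact ENNReal.ofReal_le_of_le_toReal h3
  -- let `n` tend to infinity
  have h2 : Tendsto (fun n : ℕ => ∫⁻ ω, k ω ^ n ∂P) atTop
      (𝓝 (∫⁻ ω, {ω | k ω = 1}.indicator 1 ω ∂P)) := by
    apply tendsto_lintegral_of_dominated_convergence (fun _ => 1)
    · exact fun n => hkm.pow_const n
    · intro n
      exact Eventually.of_forall fun ω => pow_le_one₀ zero_le (hk1 ω)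
    · simp
    · refine Eventually.of_forall fun ω => ?_
      by_cases hω : k ω = 1
      · simp [hω]
      · have h3 : k ω < 1 := lt_of_le_of_ne (hk1 ω) hω
        rw [Set.indicator_of_notMem (by simpa using hω)]
        exact ENNReal.tendsto_pow_atTop_nhds_zero_of_lt_one h3
  have h3 : MeasurableSet {ω | k ω = 1} := hkm (measurableSet_singleton 1)
  rw [lintegral_indicator_one h3] at h2
  refine ge_of_tendsto h2 ?_
  filter_upwards [eventually_gt_atTop 0] with n hn
  exact h1 n hn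

/-- the kernel vanishes on `[tx, tx+1]` with probability bounded from below -/
lemma kernel_zero {K : ℝ → ℝ → Kernel (Ω × ℝ) ℝ} {β B : ℝ} {ν : Measure ℝ}
    (hK : IsHowittWarren P K β ν) (hB : ∀ m, betaPlus β ν m ≤ B) {x : ℝ} (hx : β < x) {t : ℝ}
    (ht : 0 < t) :
    ENNReal.ofReal (1 - ((B - β) * t + Real.sqrt t) / ((x - β) * t)) ≤
      P {ω | K 0 t (ω, 0) (Set.Icc (t * x) (t * x + 1)) = 0} := by
  have hu : 0 < (x - β) * t := mul_pos (by linarith) ht
  have h1 := kernel_one hK hB ⟨t, ht.le⟩ hu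
  change ENNReal.ofReal (1 - ((B - β) * t + Real.sqrt t) / ((x - β) * t)) ≤
    P {ω | K 0 t (ω, 0) (Set.Iio (β * t + (x - β) * t)) = 1} at h1
  refine h1.trans (measure_mono ?_)
  intro ω hω
  simp only [Set.mem_setOf_eq] at hω ⊢
  haveI := hK.flow.markov 0 t ht.le
  have h2 : K 0 t (ω, 0) (Set.Iio (β * t + (x - β) * t))ᶜ = 0 := by
    rw [prob_compl_eq_zero_iff measurableSet_Iio]
    exact hω
  refine measure_mono_null ?_ h2
  intro y hy
  simp only [Set.mem_compl_iff, Set.mem_Iio, not_lt]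
  have := hy.1
  nlinarith

lemma rescaled_top {K : ℝ → ℝ → Kernel (Ω × ℝ) ℝ} {x c σ t : ℝ} {ω : Ω} (hσ : 0 < σ) (ht : 0 < t)
    (h0 : K 0 t (ω, 0) (Set.Icc (t * x) (t * x + 1)) = 0) : rescaled K x c σ t ω = ⊤ := by
  unfold rescaled
  rw [h0, ENNReal.log_zero, EReal.neg_bot, EReal.top_sub_coe]
  apply EReal.top_div_of_pos_ne_top
  · exact_mod_cast mul_pos hσ (Real.rpow_pos_of_pos ht _)
  · exact EReal.coe_ne_top _

lemma rescaled_bot {K : ℝ → ℝ → Kernel (Ω × ℝ) ℝ} {x c σ t : ℝ} {ω : Ω} (hσ : σ < 0) (ht : 0 < t)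
    (h0 : K 0 t (ω, 0) (Set.Icc (t * x) (t * x + 1)) = 0) : rescaled K x c σ t ω = ⊥ := by
  unfold rescaled
  rw [h0, ENNReal.log_zero, EReal.neg_bot, EReal.top_sub_coe]
  apply EReal.top_div_of_neg_ne_bot
  · exact_mod_cast mul_neg_of_neg_of_pos hσ (Real.rpow_pos_of_pos ht _)
  · exact EReal.coe_ne_bot _

end Pool.Agent.U125.HW
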